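import Mathlib
import Pool.Agent.H13.TDFinal

/-! Classification of the tridiagonal pairs with shape vector `(ρ, ρ, …, ρ)`, `ρ ≥ 2`. -/

open Module Polynomial Pool.Agent.H13.TD

namespace Pool.Agent.Results.MP_0867a7_al.ConstantShape

lemma dat_of {K : Type*} [Field K] {ρ d : ℕ} {θ θ' : ℕ → K} {m : K[X]}
    (h : Admissible ρ d θ θ' m) : Dat d θ θ' := ⟨h.1, h.2.1, h.2.2.1, h.2.2.2.1⟩

/-- the model satisfies everything -/
lemma model_facts {K : Type*} [Field K] {ρ d : ℕ} {θ θ' : ℕ → K} {m : K[X]}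
    (h2 : 2 ≤ ρ) (h : Admissible ρ d θ θ' m) :
    Std (modelA d θ m) (modelB d θ θ' m) d θ ∧
    Std (modelB d θ θ' m) (modelA d θ m) d (fun i => θ' (d - i)) ∧
    Irr (modelA d θ m) (modelB d θ θ' m) ∧
    (∀ i ≤ d, finrank K ((modelA d θ m).eigenspace (θ i)) = ρ) := by
  have D := dat_of h
  obtain ⟨-, -, -, -, hmon, hirr, hdeg⟩ := h
  have : Fact (Irreducible m) := ⟨hirr⟩
  have : FiniteDimensional K (AdjoinRoot m) := fin_adjoin hirr.ne_zero
  have hx := root_not_mem (m := m) (by omega)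
  refine ⟨std_model D (AdjoinRoot.root m), std_model_dual D (AdjoinRoot.root m) hx,
    irr_model D (AdjoinRoot.root m) hx (root_gen m), fun i hi => ?_⟩
  have h3 := finrank_eig (L := AdjoinRoot m) D i hi
  rw [finrank_adjoin, hdeg] at h3
  exact h3

lemma finrank_eig_map {K V W : Type*} [Field K] [AddCommGroup V] [Module K V] [AddCommGroup W]
    [Module K W] {A : End K V} {A' : End K W} (σ : V ≃ₗ[K] W) (h : ∀ v, σ (A v) = A' (σ v))
    (μ : K) : finrank K (A.eigenspace μ) = finrank K (A'.eigenspace μ) := by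
  rw [← LinearEquiv.finrank_map_eq σ (A.eigenspace μ)]
  congr 2
  all_goals
    try
      ext w
      rw [Submodule.mem_map]
      constructor
      · rintro ⟨v, hv, rfl⟩
        exact (eig_map σ h μ v).1 hv
      · intro hw
        refine ⟨σ.symm w, (eig_map σ h μ _).2 ?_, ?_⟩
        · rwa [LinearEquiv.apply_symm_apply]
        · exact σ.apply_symm_apply w

theorem part_one {K : Type*} [Field K] {ρ : ℕ} (hρ : 2 ≤ ρ) {V : Type*} [AddCommGroup V]
    [Module K V] [FiniteDimensional K V] (A B : End K V) :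
    (IsTridiagonalPair A B ∧ ConstantShape A ρ) ↔
      ∃ (d : ℕ) (θ θ' : ℕ → K) (m : K[X]), Admissible ρ d θ θ' m ∧
        PairIso A B (modelA d θ m) (modelB d θ θ' m) := by
  constructor
  · rintro ⟨⟨hA, hB, ⟨d, θ, hθ⟩, ⟨δ, θ', hθ'⟩, irr⟩, hc⟩
    have s1 := hθ.std hA
    have s2 := hθ'.std hB
    have hd := diam_eq s1 s2 irr
    subst hd
    obtain ⟨m, h1, h2⟩ := forward s1 s2 irr (fun i hi => hc _ (s1.ne i hi)) hρ
    exact ⟨d, θ, θ', m, h1, h2⟩
  · rintro ⟨d, θ, θ', m, h, hiso⟩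
    obtain ⟨s1, s2, irr, hf⟩ := model_facts hρ h
    obtain ⟨σ, hA, hB⟩ := hiso.symm
    have t1 := s1.congr σ hA hB
    have t2 := s2.congr σ hB hA
    have t3 := irr.congr σ hA hB
    refine ⟨⟨t1.iSup_top, t2.iSup_top, ⟨d, θ, t1.standardOrder⟩, ⟨d, _, t2.standardOrder⟩, t3⟩, ?_⟩
    intro μ hμ
    obtain ⟨i, hi, rfl⟩ := (t1.eigenvalue_iff μ).1 hμ
    rw [← finrank_eig_map σ hA, hf i hi]

lemma eq_of_dvd {K : Type*} [Field K] {m n : K[X]} (hm : m.Monic) (hn : n.Monic)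
    (hmi : Irreducible m) (hni : Irreducible n) (h : n ∣ m) : m = n :=
  (eq_of_monic_of_associated hn hm (hni.associated_of_dvd hmi h)).symm

/-- isomorphic models with the same eigenvalue sequences have the same polynomial -/
lemma same_poly {K : Type*} [Field K] {ρ d : ℕ} {θ θ' : ℕ → K} {m n : K[X]}
    (hm : Admissible ρ d θ θ' m) (hn : Admissible ρ d θ θ' n)
    (h : PairIso (modelA d θ m) (modelB d θ θ' m) (modelA d θ n) (modelB d θ θ' n)) : m = n := by
  have D := dat_of hm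
  obtain ⟨-, -, -, -, hmm, hmi, -⟩ := hm
  obtain ⟨-, -, -, -, hnm, hni, -⟩ := hn
  have : Fact (Irreducible m) := ⟨hmi⟩
  have : Fact (Irreducible n) := ⟨hni⟩
  apply eq_of_dvd hmm hnm hmi hni
  have h1 := iso_same D (AdjoinRoot.root m) (AdjoinRoot.root n) h m (by
    rw [AdjoinRoot.aeval_eq, AdjoinRoot.mk_self])
  rw [AdjoinRoot.aeval_eq, AdjoinRoot.mk_eq_zero] at h1
  exact h1

lemma adm_of {K : Type*} [Field K] {ρ d : ℕ} {θ θ' η η' : ℕ → K} {m : K[X]}
    (h : Admissible ρ d θ θ' m) (D : Dat d η η') (a : K) :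
    Admissible ρ d η η' (m.comp (X - C a)) := by
  obtain ⟨-, -, -, -, hmm, hmi, hdeg⟩ := h
  exact ⟨D.hd, D.inj, D.inj', D.rc, comp_monic a hmm, comp_irr a hmi, by rw [comp_natDegree, hdeg]⟩

/-- from an isomorphism over `K[X]/(m)` to one with the shifted polynomial -/
lemma shift_iso {K : Type*} [Field K] {d : ℕ} {θ θ' η η' : ℕ → K} {m : K[X]}
    [Fact (Irreducible m)] (a : K)
    (h : PairIso (AK (AdjoinRoot m) d η) (BK d η η' (AdjoinRoot.root m + algebraMap K _ a))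
      (AK (AdjoinRoot m) d θ) (BK d θ θ' (AdjoinRoot.root m))) :
    PairIso (modelA d η (m.comp (X - C a))) (modelB d η η' (m.comp (X - C a)))
      (modelA d θ m) (modelB d θ θ' m) := by
  have hmi : Irreducible m := Fact.out
  have : Fact (Irreducible (m.comp (X - C a))) := ⟨comp_irr a hmi⟩
  obtain ⟨ψ, hψ⟩ := adjoin_shift hmi a
  have h1 := iso_algEquiv (d := d) (θ := η) (θ' := η') ψ (AdjoinRoot.root (m.comp (X - C a)))
  rw [hψ] at h1
  exact h1.trans h

lemma model_congr {K : Type*} [Field K] {d : ℕ} (hd : 1 ≤ d) {θ θ' η η' : ℕ → K} (m : K[X])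
    [Fact (Irreducible m)] (h : ∀ i ≤ d, η i = θ i) (h' : ∀ i ≤ d, η' i = θ' i) :
    PairIso (modelA d η m) (modelB d η η' m) (modelA d θ m) (modelB d θ θ' m) := by
  have e1 : modelA d η m = modelA d θ m := AK_congr (L := AdjoinRoot m) h
  have e2 : modelB d η η' m = modelB d θ θ' m := BK_congr (L := AdjoinRoot m) hd h h' _
  rw [e1, e2]
  exact PairIso.refl _ _

lemma dat_congr {K : Type*} [Field K] {d : ℕ} {θ θ' η η' : ℕ → K} (D : Dat d θ θ')
    (h : ∀ i ≤ d, η i = θ i) (h' : ∀ i ≤ d, η' i = θ' i) : Dat d η η' := by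
  obtain ⟨hd, inj, inj', c, hc⟩ := D
  refine ⟨hd, fun i hi j hj hij => inj i hi j hj (by rw [← h i hi, ← h j hj, hij]),
    fun i hi j hj hij => inj' i hi j hj (by rw [← h' i hi, ← h' j hj, hij]), c, fun i hi => ?_⟩
  rw [h i (by omega), h (i + 3) hi, h (i + 1) (by omega), h (i + 2) (by omega),
    h' i (by omega), h' (i + 3) hi, h' (i + 1) (by omega), h' (i + 2) (by omega)]
  exact hc i hi

/-- the three nontrivial isomorphisms -/
lemma model_isos {K : Type*} [Field K] {ρ d : ℕ} {θ θ' : ℕ → K} {m : K[X]} (h2 : 2 ≤ ρ)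
    (h : Admissible ρ d θ θ' m) {η η' : ℕ → K} {n : K[X]}
    (hr : ((∀ i ≤ d, η i = θ i) ∧ (∀ i ≤ d, η' i = θ' i) ∧ n = m) ∨
   ((∀ i ≤ d, η i = θ (d - i)) ∧ (∀ i ≤ d, η' i = θ' i) ∧
      n = m.comp (X - C ((θ 0 - θ d) * (θ' 0 - θ' 1)))) ∨
   ((∀ i ≤ d, η i = θ i) ∧ (∀ i ≤ d, η' i = θ' (d - i)) ∧
      n = m.comp (X - C ((θ' 0 - θ' d) * (θ 0 - θ 1)))) ∨
   ((∀ i ≤ d, η i = θ (d - i)) ∧ (∀ i ≤ d, η' i = θ' (d - i)) ∧
      n = m.comp (X - C ((θ' 0 - θ' d) * (θ 0 - θ 1) + (θ 0 - θ d) * (θ' d - θ' (d - 1)))))) :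
    Admissible ρ d η η' n ∧
      PairIso (modelA d η n) (modelB d η η' n) (modelA d θ m) (modelB d θ θ' m) := by
  have D := dat_of h
  have hmi : Irreducible m := h.2.2.2.2.2.1
  have hdeg := h.2.2.2.2.2.2
  have : Fact (Irreducible m) := ⟨hmi⟩
  have hx := root_not_mem (m := m) (by omega)
  rcases hr with ⟨h3, h4, rfl⟩ | ⟨h3, h4, rfl⟩ | ⟨h3, h4, rfl⟩ | ⟨h3, h4, rfl⟩
  · have D' := dat_congr D h3 h4
    exact ⟨⟨D'.hd, D'.inj, D'.inj', D'.rc, h.2.2.2.2⟩, model_congr D.hd n h3 h4⟩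
  · have D' := dat_congr D.rev1 h3 h4
    have : Fact (Irreducible (m.comp (X - C ((θ 0 - θ d) * (θ' 0 - θ' 1))))) :=
      ⟨comp_irr _ hmi⟩
    exact ⟨adm_of h D' _, (model_congr D.hd _ h3 h4).trans (shift_iso _ (isoR D _))⟩
  · have D' := dat_congr D.rev2 h3 h4
    have : Fact (Irreducible (m.comp (X - C ((θ' 0 - θ' d) * (θ 0 - θ 1))))) :=
      ⟨comp_irr _ hmi⟩
    exact ⟨adm_of h D' _, (model_congr D.hd _ h3 h4).trans (shift_iso _ (isoR' D _ hx))⟩
  · have D' := dat_congr D.rev1.rev2 h3 h4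
    have : Fact (Irreducible (m.comp (X - C ((θ' 0 - θ' d) * (θ 0 - θ 1) +
      (θ 0 - θ d) * (θ' d - θ' (d - 1)))))) := ⟨comp_irr _ hmi⟩
    exact ⟨adm_of h D' _, (model_congr D.hd _ h3 h4).trans (shift_iso _ (isoRR' D _ hx))⟩

theorem part_two {K : Type*} [Field K] {ρ : ℕ} (hρ : 2 ≤ ρ) (d : ℕ) (θ θ' : ℕ → K) (m : K[X])
    (e : ℕ) (η η' : ℕ → K) (n : K[X]) (hm : Admissible ρ d θ θ' m)
    (hn : Admissible ρ e η η' n) :
    PairIso (modelA d θ m) (modelB d θ θ' m) (modelA e η n) (modelB e η η' n) ↔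
      Related d θ θ' m e η η' n := by
  constructor
  · intro hiso
    obtain ⟨s1, s2, irr, -⟩ := model_facts hρ hm
    obtain ⟨t1, t2, -, -⟩ := model_facts hρ hn
    obtain ⟨σ, hA, hB⟩ := hiso.symm
    have u1 := t1.congr σ hA hB
    have u2 := t2.congr σ hB hA
    obtain ⟨hed, hor⟩ := order_unique s1 u1 irr
    subst hed
    obtain ⟨-, hor'⟩ := order_unique s2 u2 irr.symm
    have hor2 : (∀ i ≤ e, η' i = θ' i) ∨ (∀ i ≤ e, η' i = θ' (e - i)) := by
      rcases hor' with h | h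
      · left
        intro i hi
        have := h (e - i) (by omega)
        simpa only [show e - (e - i) = i by omega] using this
      · right
        intro i hi
        have := h (e - i) (by omega)
        simp only [show e - (e - i) = i by omega] at this
        exact this
    refine ⟨rfl, ?_⟩
    rcases hor with h1 | h1 <;> rcases hor2 with h2 | h2
    · left
      refine ⟨h1, h2, ?_⟩
      obtain ⟨a1, a2⟩ := model_isos hρ hm (η := η) (η' := η') (Or.inl ⟨h1, h2, rfl⟩)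
      exact (same_poly a1 hn (a2.trans hiso)).symm
    · right; right; left
      refine ⟨h1, h2, ?_⟩
      obtain ⟨a1, a2⟩ := model_isos hρ hm (η := η) (η' := η')
        (Or.inr (Or.inr (Or.inl ⟨h1, h2, rfl⟩)))
      exact (same_poly a1 hn (a2.trans hiso)).symm
    · right; left
      refine ⟨h1, h2, ?_⟩
      obtain ⟨a1, a2⟩ := model_isos hρ hm (η := η) (η' := η') (Or.inr (Or.inl ⟨h1, h2, rfl⟩))
      exact (same_poly a1 hn (a2.trans hiso)).symm
    · right; right; right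
      refine ⟨h1, h2, ?_⟩
      obtain ⟨a1, a2⟩ := model_isos hρ hm (η := η) (η' := η')
        (Or.inr (Or.inr (Or.inr ⟨h1, h2, rfl⟩)))
      exact (same_poly a1 hn (a2.trans hiso)).symm
  · rintro ⟨rfl, hr⟩
    exact (model_isos hρ hm hr).2.symm

theorem result {K : Type*} [Field K] {ρ : ℕ} (hρ : 2 ≤ ρ) :
    (∀ {V : Type*} [AddCommGroup V] [Module K V] [FiniteDimensional K V] [Nontrivial V]
      (A B : End K V), (IsTridiagonalPair A B ∧ ConstantShape A ρ) ↔
        ∃ (d : ℕ) (θ θ' : ℕ → K) (m : K[X]), Admissible ρ d θ θ' m ∧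
          PairIso A B (modelA d θ m) (modelB d θ θ' m)) ∧
    (∀ (d : ℕ) (θ θ' : ℕ → K) (m : K[X]) (e : ℕ) (η η' : ℕ → K) (n : K[X]),
      Admissible ρ d θ θ' m → Admissible ρ e η η' n →
        (PairIso (modelA d θ m) (modelB d θ θ' m) (modelA e η n) (modelB e η η' n) ↔
          Related d θ θ' m e η η' n)) :=
  ⟨fun A B => part_one hρ A B, fun d θ θ' m e η η' n hm hn => part_two hρ d θ θ' m e η η' n hm hn⟩

end Pool.Agent.Results.MP_0867a7_al.ConstantShape
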